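import Pool.Agent.H902R3.PZ.Stmts
import Pool.Agent.H336Sel.Order
import Pool.Agent.Helper240.ZU.A1

/-!
# Task Z of MP_995735_nt
-/

set_option autoImplicit false

open Complex Filter Topology Set MeasureTheory

namespace Pool.Agent.H486R3.PZZ

/-- growth of order two outside a ball extends to the whole plane -/
lemma growth_ext {f : ℂ → ℂ} (hf : Continuous f) (R C : ℝ)
    (h : ∀ s : ℂ, R ≤ ‖s‖ → ‖f s‖ ≤ Real.exp (C * (1 + ‖s‖) ^ 2)) :
    ∃ C' : ℝ, ∀ s : ℂ, ‖f s‖ ≤ Real.exp (C' * (1 + ‖s‖) ^ 2) := by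
  obtain ⟨M, hM⟩ := (isCompact_closedBall (0 : ℂ) R).exists_bound_of_continuousOn hf.continuousOn
  set M' : ℝ := max M 0 with hM'
  have hM0 : 0 ≤ M' := le_max_right _ _
  have hl0 : 0 ≤ Real.log (1 + M') := Real.log_nonneg (by linarith)
  refine ⟨max C (Real.log (1 + M')), fun s => ?_⟩
  have h1 : (1 : ℝ) ≤ (1 + ‖s‖) ^ 2 := by
    have := norm_nonneg s
    nlinarith
  rcases le_total R ‖s‖ with hs | hs
  · refine (h s hs).trans (Real.exp_le_exp.2 ?_)
    exact mul_le_mul_of_nonneg_right (le_max_left _ _) (by positivity)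
  · have h2 : ‖f s‖ ≤ 1 + M' := by
      have := hM s (by simpa using hs)
      have := le_max_left M 0
      linarith
    calc ‖f s‖ ≤ 1 + M' := h2
      _ = Real.exp (Real.log (1 + M')) := (Real.exp_log (by linarith)).symm
      _ ≤ Real.exp (max C (Real.log (1 + M')) * (1 + ‖s‖) ^ 2) := by
        apply Real.exp_le_exp.2
        calc Real.log (1 + M') = Real.log (1 + M') * 1 := (mul_one _).symm
          _ ≤ Real.log (1 + M') * (1 + ‖s‖) ^ 2 := mul_le_mul_of_nonneg_left h1 hl0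
          _ ≤ _ := mul_le_mul_of_nonneg_right (le_max_right _ _) (by positivity)

/-- the entire function (s-1) zeta(s) -/
noncomputable def Z : ℂ → ℂ := Function.update (fun s => (s - 1) * riemannZeta s) 1 1

lemma Z_ne {s : ℂ} (hs : s ≠ 1) : Z s = (s - 1) * riemannZeta s := by
  unfold Z; rw [Function.update_of_ne hs]

lemma Z_one : Z 1 = 1 := by unfold Z; rw [Function.update_self]

lemma Z_diff : Differentiable ℂ Z := by
  rw [← differentiableOn_univ,
    ← Complex.differentiableOn_compl_singleton_and_continuousAt_iff (c := 1) Filter.univ_mem]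
  constructor
  · have h1 : DifferentiableOn ℂ (fun s => (s - 1) * riemannZeta s) (univ \ {1}) := by
      intro z hz
      have hz1 : z ≠ 1 := fun h => hz.2 (by rw [h]; rfl)
      exact ((differentiableAt_id.sub_const 1).mul
        (differentiableAt_riemannZeta hz1)).differentiableWithinAt
    refine h1.congr ?_
    intro z hz
    have hz1 : z ≠ 1 := fun h => hz.2 (by rw [h]; rfl)
    exact Z_ne hz1
  · unfold Z
    rw [continuousAt_update_same]
    exact riemannZeta_residue_one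

/-- growth in the right half plane -/
lemma Z_right {s : ℂ} (hs : 1 / 2 ≤ s.re) : ‖Z s‖ ≤ 3 * (1 + ‖s‖) ^ 2 := by
  have hn := norm_nonneg s
  by_cases hs1 : s = 1
  · rw [hs1, Z_one]; norm_num
  · have hs0 : 0 < s.re := by linarith
    rw [Z_ne hs1, ZU.J_a1.zf_one s hs0 hs1]
    set I := ∫ u in Ioi (1 : ℝ), ((Int.fract u : ℝ) : ℂ) * (u : ℂ) ^ (-s - 1) with hI
    have hIb : ‖I‖ ≤ 2 := by
      have h1 : ‖I‖ ≤ ∫ u in Ioi (1 : ℝ), u ^ (-s.re - 1) := by
        rw [hI]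
        refine norm_integral_le_of_norm_le (integrableOn_Ioi_rpow_of_lt (by linarith) one_pos) ?_
        refine (ae_restrict_iff' measurableSet_Ioi).2 (Eventually.of_forall fun u hu => ?_)
        have hu0 : (0 : ℝ) < u := lt_trans one_pos hu
        rw [norm_mul, Complex.norm_cpow_eq_rpow_re_of_pos hu0]
        have h2 : ‖((Int.fract u : ℝ) : ℂ)‖ ≤ 1 := by
          rw [Complex.norm_real, Real.norm_eq_abs, Int.abs_fract]
          exact (Int.fract_lt_one u).le
        have h3 : (-s - 1).re = -s.re - 1 := by simp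
        rw [h3]
        calc ‖((Int.fract u : ℝ) : ℂ)‖ * u ^ (-s.re - 1) ≤ 1 * u ^ (-s.re - 1) :=
              mul_le_mul_of_nonneg_right h2 (by positivity)
          _ = _ := one_mul _
      rw [integral_Ioi_rpow_of_lt (by linarith) one_pos, Real.one_rpow] at h1
      refine h1.trans ?_
      rw [show -s.re - 1 + 1 = -s.re by ring, neg_div_neg_eq, div_le_iff₀ hs0]
      linarith
    have hne : s - 1 ≠ 0 := sub_ne_zero.2 hs1
    have e : (s - 1) * (1 + 1 / (s - 1) - s * I) = s - (s - 1) * s * I := by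
      field_simp
      ring
    rw [e]
    calc ‖s - (s - 1) * s * I‖ ≤ ‖s‖ + ‖(s - 1) * s * I‖ := norm_sub_le _ _
      _ ≤ ‖s‖ + (‖s‖ + 1) * ‖s‖ * 2 := by
        gcongr
        rw [norm_mul, norm_mul]
        gcongr
        calc ‖s - 1‖ ≤ ‖s‖ + ‖(1 : ℂ)‖ := norm_sub_le _ _
          _ = ‖s‖ + 1 := by rw [norm_one]
      _ ≤ 3 * (1 + ‖s‖) ^ 2 := by nlinarith

/-- bound for Gamma on the half plane -/
lemma Gamma_bd {x : ℝ} (hx : 1 / 2 ≤ x) : Real.Gamma x ≤ 2 * Real.exp ((x + 2) ^ 2) := by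
  have h1 : Real.Gamma (x + 1) = x * Real.Gamma x := Real.Gamma_add_one (by linarith)
  have h2 := H336Sel.Gamma_le_exp (x := x + 1) (by linarith)
  rw [h1] at h2
  have h3 : 0 < Real.Gamma x := Real.Gamma_pos_of_pos (by linarith)
  have h4 : (x + 1 + 1) ^ 2 = (x + 2) ^ 2 := by ring
  rw [h4] at h2
  nlinarith

lemma Z_growth : ∃ C : ℝ, ∀ s : ℂ, ‖Z s‖ ≤ Real.exp (C * (1 + ‖s‖) ^ 2) := by
  refine growth_ext Z_diff.continuous 1 40 fun s hs => ?_
  have hn := norm_nonneg s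
  rcases le_total (1 / 2) s.re with hr | hr
  · refine (Z_right hr).trans ?_
    have h1 := Real.add_one_le_exp (3 * (1 + ‖s‖) ^ 2)
    calc 3 * (1 + ‖s‖) ^ 2 ≤ Real.exp (3 * (1 + ‖s‖) ^ 2) := by linarith
      _ ≤ _ := Real.exp_le_exp.2 (by nlinarith [sq_nonneg (1 + ‖s‖)])
  · set w : ℂ := 1 - s with hw
    have hwre : 1 / 2 ≤ w.re := by rw [hw]; simp; linarith
    have hwn : ‖w‖ ≤ 1 + ‖s‖ := by
      calc ‖w‖ ≤ ‖(1 : ℂ)‖ + ‖s‖ := norm_sub_le _ _
        _ = 1 + ‖s‖ := by rw [norm_one]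
    have hs0 : s ≠ 0 := by
      intro h; rw [h, norm_zero] at hs; linarith
    have hw1 : w ≠ 1 := by
      intro h
      apply hs0
      have : s = 1 - w := by rw [hw]; ring
      rw [this, h, sub_self]
    have hwn' : ∀ n : ℕ, w ≠ -n := by
      intro n h
      rw [h] at hwre
      simp at hwre
      have : (0 : ℝ) ≤ n := Nat.cast_nonneg n
      linarith
    have hs1 : s ≠ 1 := by
      intro h; rw [h] at hr; norm_num at hr
    have hfe := riemannZeta_one_sub hwn' hw1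
    have hsw : 1 - w = s := by rw [hw]; ring
    rw [hsw] at hfe
    rw [Z_ne hs1, hfe]
    have hZw : riemannZeta w = Z w / (w - 1) := by
      rw [Z_ne hw1, mul_div_cancel_left₀ _ (sub_ne_zero.2 hw1)]
    rw [hZw]
    have hws : w - 1 = -s := by rw [hw]; ring
    rw [hws]
    have b1 : ‖s - 1‖ ≤ 1 + ‖s‖ := by
      calc ‖s - 1‖ ≤ ‖s‖ + ‖(1 : ℂ)‖ := norm_sub_le _ _
        _ = 1 + ‖s‖ := by rw [norm_one, add_comm]
    have b2 : ‖((2 * Real.pi : ℂ)) ^ (-w)‖ ≤ 1 := by
      have h2pi : (0 : ℝ) < 2 * Real.pi := by positivity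
      have : ((2 * Real.pi : ℂ)) = ((2 * Real.pi : ℝ) : ℂ) := by push_cast; ring
      rw [this, Complex.norm_cpow_eq_rpow_re_of_pos h2pi]
      apply Real.rpow_le_one_of_one_le_of_nonpos
      · have := Real.pi_gt_three
        linarith
      · rw [Complex.neg_re]; linarith
    have hwre' : w.re ≤ 1 + ‖s‖ := (Complex.re_le_norm w).trans hwn
    have b3 : ‖Complex.Gamma w‖ ≤ 2 * Real.exp ((3 + ‖s‖) ^ 2) := by
      refine (H336Sel.norm_Gamma_le (by linarith)).trans ((Gamma_bd hwre).trans ?_)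
      have : (w.re + 2) ^ 2 ≤ (3 + ‖s‖) ^ 2 := by
        apply pow_le_pow_left₀ (by linarith)
        linarith
      have := Real.exp_le_exp.2 this
      linarith
    have b4 : ‖Complex.cos (Real.pi * w / 2)‖ ≤ Real.exp (2 * (1 + ‖s‖)) := by
      have h1 : Complex.cos (Real.pi * w / 2) = Complex.sin (Real.pi / 2 - Real.pi * w / 2) := by
        rw [Complex.sin_pi_div_two_sub]
      rw [h1]
      refine (H336Sel.norm_sin_le _).trans (Real.exp_le_exp.2 ?_)
      refine (Complex.abs_im_le_norm _).trans ?_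
      have h2 : (Real.pi / 2 - Real.pi * w / 2 : ℂ) = (Real.pi / 2 : ℝ) * s := by
        rw [hw]; push_cast; ring
      rw [h2, norm_mul, Complex.norm_real, Real.norm_of_nonneg (by positivity)]
      have := Real.pi_lt_four
      nlinarith
    have b5 : ‖Z w / (-s)‖ ≤ 3 * (2 + ‖s‖) ^ 2 := by
      rw [norm_div, norm_neg]
      refine (div_le_self (norm_nonneg _) hs).trans ((Z_right hwre).trans ?_)
      have : (1 + ‖w‖) ^ 2 ≤ (2 + ‖s‖) ^ 2 := by
        apply pow_le_pow_left₀ (by positivity)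
        linarith
      linarith
    rw [norm_mul, norm_mul, norm_mul, norm_mul, norm_mul, Complex.norm_ofNat]
    set x := 1 + ‖s‖ with hx
    have hx1 : 2 ≤ x := by linarith
    have hx0 : 0 ≤ x := by linarith
    calc ‖s - 1‖ * (2 * ‖((2 * Real.pi : ℂ)) ^ (-w)‖ * ‖Complex.Gamma w‖ *
          ‖Complex.cos (Real.pi * w / 2)‖ * ‖Z w / (-s)‖)
        ≤ x * (2 * 1 * (2 * Real.exp ((3 + ‖s‖) ^ 2)) * Real.exp (2 * x) * (3 * (2 + ‖s‖) ^ 2)) := by
          gcongr
      _ = (12 * x * (2 + ‖s‖) ^ 2) * (Real.exp ((3 + ‖s‖) ^ 2) * Real.exp (2 * x)) := by ring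
      _ ≤ Real.exp (30 * x ^ 2) * (Real.exp ((3 + ‖s‖) ^ 2) * Real.exp (2 * x)) := by
          gcongr
          have e1 : 12 * x ≤ Real.exp (12 * x) := by
            have := Real.add_one_le_exp (12 * x); linarith
          have e2 : (2 + ‖s‖) ≤ Real.exp (2 + ‖s‖) := by
            have := Real.add_one_le_exp (2 + ‖s‖); linarith
          calc 12 * x * (2 + ‖s‖) ^ 2 ≤ Real.exp (12 * x) * (Real.exp (2 + ‖s‖)) ^ 2 := by
                gcongr
            _ = Real.exp (12 * x + 2 * (2 + ‖s‖)) := by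
                rw [← Real.exp_nat_mul, ← Real.exp_add]; push_cast; ring_nf
            _ ≤ Real.exp (30 * x ^ 2) := by
                apply Real.exp_le_exp.2
                have : ‖s‖ = x - 1 := by rw [hx]; ring
                rw [this]
                nlinarith
      _ = Real.exp (30 * x ^ 2 + ((3 + ‖s‖) ^ 2 + 2 * x)) := by
          rw [← Real.exp_add, ← Real.exp_add]
      _ ≤ Real.exp (40 * x ^ 2) := by
          apply Real.exp_le_exp.2
          have : ‖s‖ = x - 1 := by rw [hx]; ring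
          rw [this]
          nlinarith

lemma factor (f : ℂ → ℂ) (hf : Differentiable ℂ f) (a : ℂ) (ha : f a = 0) :
    ∃ g : ℂ → ℂ, Differentiable ℂ g ∧ ∀ s, f s = (s - a) * g s := by
  refine ⟨dslope f a, ?_, fun s => ?_⟩
  · rw [← differentiableOn_univ, Complex.differentiableOn_dslope Filter.univ_mem]
    exact hf.differentiableOn
  · have := sub_smul_dslope f a s
    rw [ha, sub_zero, smul_eq_mul] at this
    exact this.symm

theorem taskZ : Pool.Agent.H902R3.PZ.TaskZ := by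
  intro γ hγ hζ
  set ρ : ℂ := 1 / 2 + γ * Complex.I with hρ
  set ρ' : ℂ := 1 / 2 - γ * Complex.I with hρ'
  have hρ1 : ρ ≠ 1 := by
    intro h
    have := congrArg Complex.re h
    simp [hρ] at this
  have hρ1' : ρ' ≠ 1 := by
    intro h
    have := congrArg Complex.re h
    simp [hρ'] at this
  have hconj : (starRingEnd ℂ) ρ = ρ' := by
    rw [hρ, hρ']
    simp [Complex.ext_iff]
  have hζ' : riemannZeta ρ' = 0 := by
    rw [← hconj, riemannZeta_conj, hζ, map_zero]
  have hZρ : Z ρ = 0 := by rw [Z_ne hρ1, hζ, mul_zero]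
  have hZρ' : Z ρ' = 0 := by rw [Z_ne hρ1', hζ', mul_zero]
  obtain ⟨Y1, hY1, hZ1⟩ := factor Z Z_diff ρ hZρ
  have hne : ρ' - ρ ≠ 0 := by
    intro h
    have h2 := congrArg Complex.im h
    simp [hρ, hρ'] at h2
    linarith
  have hY1ρ : Y1 ρ' = 0 := by
    have h := hZ1 ρ'
    rw [hZρ'] at h
    rcases mul_eq_zero.1 h.symm with h | h
    · exact absurd h hne
    · exact h
  obtain ⟨Y, hY, hZ2⟩ := factor Y1 hY1 ρ' hY1ρ
  have hfac : ∀ s : ℂ, Z s = ((s - 1 / 2) ^ 2 + (γ : ℂ) ^ 2) * Y s := by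
    intro s
    rw [hZ1 s, hZ2 s, hρ, hρ']
    have : (s - (1 / 2 + γ * Complex.I)) * ((s - (1 / 2 - γ * Complex.I)) * Y s) =
        ((s - 1 / 2) ^ 2 - (γ : ℂ) ^ 2 * (Complex.I ^ 2)) * Y s := by ring
    rw [this, Complex.I_sq]
    ring
  obtain ⟨C, hC⟩ := Z_growth
  refine ⟨Z, Y, Z_diff, hY, fun s hs => Z_ne hs, Z_one, hfac, ⟨C, hC⟩, ?_⟩
  refine growth_ext hY.continuous (2 + γ + 1) C fun s hs => ?_
  have h1 : 1 ≤ ‖(s - 1 / 2) ^ 2 + (γ : ℂ) ^ 2‖ := by
    have h2 : ‖s‖ - 1 / 2 ≤ ‖s - 1 / 2‖ := by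
      have := norm_sub_norm_le s (1 / 2)
      have h3 : ‖(1 / 2 : ℂ)‖ = 1 / 2 := by norm_num
      rw [h3] at this
      exact this
    have h4 : γ + 2 ≤ ‖s - 1 / 2‖ := by linarith
    have h5 : ‖(s - 1 / 2) ^ 2‖ - ‖(γ : ℂ) ^ 2‖ ≤ ‖(s - 1 / 2) ^ 2 + (γ : ℂ) ^ 2‖ := by
      have := norm_sub_le_norm_add ((s - 1 / 2) ^ 2) ((γ : ℂ) ^ 2)
      exact this
    rw [norm_pow, norm_pow, Complex.norm_real, Real.norm_of_nonneg hγ.le] at h5
    nlinarith
  have h2 := hC s
  rw [hfac s, norm_mul] at h2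
  have h3 := norm_nonneg (Y s)
  calc ‖Y s‖ = 1 * ‖Y s‖ := (one_mul _).symm
    _ ≤ ‖(s - 1 / 2) ^ 2 + (γ : ℂ) ^ 2‖ * ‖Y s‖ := mul_le_mul_of_nonneg_right h1 h3
    _ ≤ _ := h2

end Pool.Agent.H486R3.PZZ

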